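import Pool.Agent.Lib.MP_3e612f_nt.ZE.Defs

/-! Project ZE, part C (van der Corput with weights): definitions. -/

set_option autoImplicit false

namespace Pool.Agent.Lib.MP_3e612f_nt.ZE

open Finset MeasureTheory Filter Topology

/-- measurable and bounded by one -/
def Bd1 {X : Type} [MeasurableSpace X] (g : X → ℝ) : Prop := Measurable g ∧ ∀ x, |g x| ≤ 1

/-- the product of two shifts of `g` -/
def sh2 {X : Type} (τ : ℤ → X → X) (c : ℤ) (a b : ℕ) (g : X → ℝ) : X → ℝ :=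
  fun x => g (τ (c * (a : ℤ)) x) * g (τ (c * (b : ℤ)) x)

/-- nested averages; each pair is (dilation, scale) -/
noncomputable def ng {X : Type} [MeasurableSpace X] (m : Measure X) (τ : ℤ → X → X) : List (ℤ × ℕ) → (X → ℝ) → ℝ
  | [], g => ∫ x, g x ∂m
  | q :: l, g => (∑ a ∈ range q.2, ∑ b ∈ range q.2, ng m τ l (sh2 τ q.1 a b g)) / (q.2 : ℝ) ^ 2

/-- nested averages at one scale, with a square inside -/
noncomputable def phi {X : Type} [MeasurableSpace X] (m : Measure X) (τ : ℤ → X → X) (H : ℕ) : List ℤ → (X → ℝ) → ℝ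
  | [], g => (∫ x, g x ∂m) ^ 2
  | c :: l, g => (∑ a ∈ range H, ∑ b ∈ range H, phi m τ H l (sh2 τ c a b g)) / (H : ℝ) ^ 2

/-- the list after one van der Corput step with pivot exponent `j` -/
def vstep {X : Type} (τ : ℤ → X → X) (j : ℤ) (a b : ℕ) (L : List (ℤ × (X → ℝ))) : List (ℤ × (X → ℝ)) :=
  L.map fun q => (q.1 - j, sh2 τ (q.1 - j) a b q.2)

theorem Bd1.sh2 {X : Type} [MeasurableSpace X] {m : Measure X} {τ : ℤ → X → X} (hτ : IsAct m τ) {g : X → ℝ} (hg : Bd1 g)
    (c : ℤ) (a b : ℕ) : Bd1 (sh2 τ c a b g) := by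
  refine ⟨(hg.1.comp (hτ.mp _).measurable).mul (hg.1.comp (hτ.mp _).measurable), fun x => ?_⟩
  unfold ZE.sh2
  rw [abs_mul]
  exact mul_le_one₀ (hg.2 _) (abs_nonneg _) (hg.2 _)

theorem Bd1.integrable {X : Type} [MeasurableSpace X] {m : Measure X} [IsProbabilityMeasure m] {g : X → ℝ} (hg : Bd1 g) :
    Integrable g m :=
  Integrable.of_bound hg.1.aestronglyMeasurable 1 (Eventually.of_forall fun x => by rw [Real.norm_eq_abs]; exact hg.2 x)

end Pool.Agent.Lib.MP_3e612f_nt.ZE
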