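import Pool.Agent.Lib.MP_3e612f_nt.ZE.C.Ng

/-! Project ZE, part C: removal of the dilations (C4). -/

set_option autoImplicit false

namespace Pool.Agent.Lib.MP_3e612f_nt.ZE

open Finset MeasureTheory Filter Topology

private theorem dil_sum {s t : ℕ} {φ : ℕ → ℕ} (hφ : Set.InjOn φ (range s : Set ℕ))
    (hm : ∀ a ∈ range s, φ a ∈ range t) {F : ℕ → ℝ} (hF : ∀ a, 0 ≤ F a) :
    ∑ a ∈ range s, F (φ a) ≤ ∑ a ∈ range t, F a := by
  rw [← sum_image (f := F) hφ]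
  exact sum_le_sum_of_subset_of_nonneg (image_subset_iff.2 hm) fun a _ _ => hF a

private theorem dil_sum2 {s t : ℕ} {φ : ℕ → ℕ} (hφ : Set.InjOn φ (range s : Set ℕ))
    (hm : ∀ a ∈ range s, φ a ∈ range t) {f : ℕ → ℕ → ℝ} (hf : ∀ a b, 0 ≤ f a b) :
    ∑ a ∈ range s, ∑ b ∈ range s, f (φ a) (φ b) ≤ ∑ a ∈ range t, ∑ b ∈ range t, f a b := by
  refine (sum_le_sum fun a _ => dil_sum hφ hm (hf (φ a))).trans ?_
  exact dil_sum (F := fun a => ∑ b ∈ range t, f a b) hφ hm fun a => sum_nonneg fun b _ => hf a b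

private theorem dil_exists {c : ℤ} (hc : c ≠ 0) (s : ℕ) : ∃ (φ : ℕ → ℕ) (n : ℤ),
    Set.InjOn φ (range s : Set ℕ) ∧ (∀ a ∈ range s, φ a ∈ range (c.natAbs * s)) ∧
      ∀ a ∈ range s, c * (a : ℤ) + n = 1 * (φ a : ℤ) := by
  have hpos : 0 < c.natAbs := Int.natAbs_pos.2 hc
  rcases lt_or_gt_of_ne hc with h | h
  · refine ⟨fun a => c.natAbs * (s - 1 - a), (c.natAbs : ℤ) * ((s - 1 : ℕ) : ℤ), ?_, ?_, ?_⟩
    · intro a ha b hb hab
      have h1 := Nat.eq_of_mul_eq_mul_left hpos hab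
      rw [mem_coe, mem_range] at ha hb
      omega
    · intro a ha
      rw [mem_range] at ha ⊢
      exact Nat.mul_lt_mul_of_pos_left (by omega) hpos
    · intro a ha
      rw [mem_range] at ha
      have h1 : ((s - 1 - a : ℕ) : ℤ) = ((s - 1 : ℕ) : ℤ) - a := by omega
      have h2 : (c.natAbs : ℤ) = -c := by omega
      rw [Nat.cast_mul, h1, h2]
      ring
  · refine ⟨fun a => c.natAbs * a, 0, ?_, ?_, ?_⟩
    · intro a _ b _ hab
      exact Nat.eq_of_mul_eq_mul_left hpos hab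
    · intro a ha
      rw [mem_range] at ha ⊢
      exact Nat.mul_lt_mul_of_pos_left ha hpos
    · intro a _
      have h2 : (c.natAbs : ℤ) = c := by omega
      rw [Nat.cast_mul, h2]
      ring

/-- (C4). For `c > 0` the pairs `(c a, c b)`, `a, b < s`, are among the pairs below `c s`, all terms are nonnegative; for
`c < 0` first shift by `|c| (s - 1)` (`ng_inv`). -/
theorem ng_dil {X : Type} [MeasurableSpace X] {m : Measure X} [IsProbabilityMeasure m] {τ : ℤ → X → X} (hτ : IsAct m τ)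
    {c : ℤ} (hc : c ≠ 0) {s : ℕ} (hs : 1 ≤ s) {l : List (ℤ × ℕ)} (hl : l ≠ []) {g : X → ℝ} (hg : Bd1 g) :
    ng m τ ((c, s) :: l) g ≤ (c : ℝ) ^ 2 * ng m τ ((1, c.natAbs * s) :: l) g := by
  obtain ⟨φ, n, hφ, hm, hn⟩ := dil_exists hc s
  have key : ∀ a ∈ range s, ∀ b ∈ range s,
      ng m τ l (sh2 τ c a b g) = ng m τ l (sh2 τ 1 (φ a) (φ b) g) := by
    intro a ha b hb
    rw [← ng_inv hτ l (hg.sh2 hτ c a b) n]
    congr 1
    funext x
    change g (τ (c * (a : ℤ)) (τ n x)) * g (τ (c * (b : ℤ)) (τ n x)) =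
      g (τ (1 * (φ a : ℤ)) x) * g (τ (1 * (φ b : ℤ)) x)
    rw [← hτ.add, ← hτ.add, hn a ha, hn b hb]
  have h1 : (∑ a ∈ range s, ∑ b ∈ range s, ng m τ l (sh2 τ c a b g)) ≤
      ∑ a ∈ range (c.natAbs * s), ∑ b ∈ range (c.natAbs * s), ng m τ l (sh2 τ 1 a b g) := by
    rw [sum_congr rfl fun a ha => sum_congr rfl fun b hb => key a ha b hb]
    exact dil_sum2 (f := fun a b => ng m τ l (sh2 τ 1 a b g)) hφ hm
      fun a b => ng_nonneg hτ hl (hg.sh2 hτ 1 a b)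
  have hs0 : (0 : ℝ) < (s : ℝ) := by exact_mod_cast hs
  have hc0 : (c : ℝ) ≠ 0 := Int.cast_ne_zero.2 hc
  have h2 : ((c.natAbs : ℕ) : ℝ) ^ 2 = (c : ℝ) ^ 2 := by
    rw [Nat.cast_natAbs, Int.cast_abs, sq_abs]
  change (∑ a ∈ range s, ∑ b ∈ range s, ng m τ l (sh2 τ c a b g)) / (s : ℝ) ^ 2 ≤
    (c : ℝ) ^ 2 * ((∑ a ∈ range (c.natAbs * s), ∑ b ∈ range (c.natAbs * s),
      ng m τ l (sh2 τ 1 a b g)) / ((c.natAbs * s : ℕ) : ℝ) ^ 2)
  rw [Nat.cast_mul, mul_pow, h2]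
  have h3 : (c : ℝ) ^ 2 * ((∑ a ∈ range (c.natAbs * s), ∑ b ∈ range (c.natAbs * s),
      ng m τ l (sh2 τ 1 a b g)) / ((c : ℝ) ^ 2 * (s : ℝ) ^ 2)) =
      (∑ a ∈ range (c.natAbs * s), ∑ b ∈ range (c.natAbs * s),
        ng m τ l (sh2 τ 1 a b g)) / (s : ℝ) ^ 2 := by
    field_simp
  rw [h3]
  exact div_le_div_of_nonneg_right h1 (sq_nonneg _)

/-- all dilations at once -/
theorem ng_dils {X : Type} [MeasurableSpace X] {m : Measure X} [IsProbabilityMeasure m] {τ : ℤ → X → X} (hτ : IsAct m τ)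
    (cs : List ℤ) (hc : ∀ c ∈ cs, c ≠ 0) {s : ℕ} (hs : 1 ≤ s) {g : X → ℝ} (hg : Bd1 g) :
    ng m τ (cs.map (fun c => (c, s)) ++ [(1, s)]) g ≤
      (cs.map fun c => (c : ℝ) ^ 2).prod * ng m τ (cs.map (fun c => ((1 : ℤ), c.natAbs * s)) ++ [(1, s)]) g := by
  induction cs generalizing g with
  | nil => simp
  | cons c cs ih =>
    have hcs : ∀ c' ∈ cs, c' ≠ 0 := fun c' h => hc c' (List.mem_cons_of_mem _ h)
    have hpr : 0 ≤ (cs.map fun c => (c : ℝ) ^ 2).prod := by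
      apply List.prod_nonneg
      intro x hx
      obtain ⟨y, _, rfl⟩ := List.mem_map.1 hx
      exact sq_nonneg _
    have hne : (cs.map (fun c => ((1 : ℤ), c.natAbs * s)) ++ [((1 : ℤ), s)]) ≠ [] := by simp
    have h1 : ng m τ ((c, s) :: (cs.map (fun c => (c, s)) ++ [(1, s)])) g ≤
        (cs.map fun c => (c : ℝ) ^ 2).prod *
          ng m τ ((c, s) :: (cs.map (fun c => ((1 : ℤ), c.natAbs * s)) ++ [(1, s)])) g := by
      change (∑ a ∈ range s, ∑ b ∈ range s,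
          ng m τ (cs.map (fun c => (c, s)) ++ [(1, s)]) (sh2 τ c a b g)) / (s : ℝ) ^ 2 ≤
        (cs.map fun c => (c : ℝ) ^ 2).prod * ((∑ a ∈ range s, ∑ b ∈ range s,
          ng m τ (cs.map (fun c => ((1 : ℤ), c.natAbs * s)) ++ [(1, s)]) (sh2 τ c a b g)) /
            (s : ℝ) ^ 2)
      rw [← mul_div_assoc]
      refine div_le_div_of_nonneg_right ?_ (sq_nonneg _)
      rw [mul_sum]
      refine sum_le_sum fun a _ => ?_
      rw [mul_sum]
      exact sum_le_sum fun b _ => ih hcs (hg.sh2 hτ c a b)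
    have h2 := ng_dil hτ (hc c List.mem_cons_self) hs hne hg
    have e : ((c :: cs).map fun c => (c : ℝ) ^ 2).prod =
        (c : ℝ) ^ 2 * (cs.map fun c => (c : ℝ) ^ 2).prod := by
      simp
    rw [List.map_cons, List.map_cons, List.cons_append, List.cons_append, e]
    refine h1.trans ?_
    have h3 := mul_le_mul_of_nonneg_left h2 hpr
    refine h3.trans (le_of_eq ?_)
    ring

end Pool.Agent.Lib.MP_3e612f_nt.ZE
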