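import Pool.Agent.Lib.MP_3e612f_nt.ZE.C.One

/-! Project ZE, part C: iteration of the van der Corput step (C2). -/

set_option autoImplicit false

namespace Pool.Agent.Lib.MP_3e612f_nt.ZE

open Finset MeasureTheory Filter Topology

theorem al_nonneg (Q H k : ℕ) (A : ℕ → ℝ) : 0 ≤ al Q H k A := by
  induction k generalizing A with
  | zero => exact sq_nonneg _
  | succ k ih => exact div_nonneg (sum_nonneg fun a _ => sum_nonneg fun b _ => ih _) (by positivity)

theorem phi_nonneg {X : Type} [MeasurableSpace X] (m : Measure X) (τ : ℤ → X → X) (H : ℕ) (cs : List ℤ) (g : X → ℝ) :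
    0 ≤ phi m τ H cs g := by
  induction cs generalizing g with
  | nil => exact sq_nonneg _
  | cons c l ih => exact div_nonneg (sum_nonneg fun a _ => sum_nonneg fun b _ => ih _) (by positivity)

/-- A sum over pairs, Jensen and Cauchy-Schwarz. -/
private theorem iter_cs (H : ℕ) (hH : 1 ≤ H) (n : ℕ) (u v w : ℕ → ℕ → ℝ) (hv : ∀ a b, 0 ≤ v a b)
    (hw : ∀ a b, 0 ≤ w a b)
    (h : ∀ a ∈ range H, ∀ b ∈ range H, |u a b| ^ n ≤ √(v a b) * √(w a b)) {S : ℝ} (hS : 0 ≤ S)
    (hSu : S ≤ (∑ a ∈ range H, ∑ b ∈ range H, u a b) / (H : ℝ) ^ 2) :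
    S ^ n ≤ √((∑ a ∈ range H, ∑ b ∈ range H, v a b) / (H : ℝ) ^ 2) *
      √((∑ a ∈ range H, ∑ b ∈ range H, w a b) / (H : ℝ) ^ 2) := by
  have hH0 : (0 : ℝ) < H := Nat.cast_pos.2 hH
  have hH2 : (0 : ℝ) < (H : ℝ) ^ 2 := by positivity
  simp only [← Finset.sum_product'] at hSu ⊢
  have h1 : S ≤ ∑ p ∈ range H ×ˢ range H, ((H : ℝ) ^ 2)⁻¹ * |u p.1 p.2| := by
    refine hSu.trans ?_
    rw [div_eq_inv_mul, Finset.mul_sum]
    exact Finset.sum_le_sum fun p _ => mul_le_mul_of_nonneg_left (le_abs_self _) (by positivity)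
  have hw1 : ∑ p ∈ range H ×ˢ range H, ((H : ℝ) ^ 2)⁻¹ = 1 := by
    rw [Finset.sum_const, Finset.card_product, Finset.card_range, nsmul_eq_mul, Nat.cast_mul]
    field_simp
  have h2 := Real.pow_arith_mean_le_arith_mean_pow (range H ×ˢ range H)
    (fun _ => ((H : ℝ) ^ 2)⁻¹) (fun p => |u p.1 p.2|) (fun _ _ => by positivity) hw1
    (fun _ _ => abs_nonneg _) n
  have h3 : ∑ p ∈ range H ×ˢ range H, ((H : ℝ) ^ 2)⁻¹ * |u p.1 p.2| ^ n ≤
      ∑ p ∈ range H ×ˢ range H, ((H : ℝ) ^ 2)⁻¹ * (√(v p.1 p.2) * √(w p.1 p.2)) := by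
    refine Finset.sum_le_sum fun p hp => ?_
    rw [Finset.mem_product] at hp
    exact mul_le_mul_of_nonneg_left (h _ hp.1 _ hp.2) (by positivity)
  have h4 := Real.sum_sqrt_mul_sqrt_le (range H ×ˢ range H) (f := fun p => v p.1 p.2)
    (g := fun p => w p.1 p.2) (fun p => hv _ _) (fun p => hw _ _)
  rw [Real.sqrt_div' _ hH2.le, Real.sqrt_div' _ hH2.le, Real.sqrt_sq hH0.le]
  calc S ^ n ≤ (∑ p ∈ range H ×ˢ range H, ((H : ℝ) ^ 2)⁻¹ * |u p.1 p.2|) ^ n :=
        pow_le_pow_left₀ hS h1 n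
    _ ≤ ∑ p ∈ range H ×ˢ range H, ((H : ℝ) ^ 2)⁻¹ * |u p.1 p.2| ^ n := h2
    _ ≤ _ := h3
    _ = ((H : ℝ) ^ 2)⁻¹ * ∑ p ∈ range H ×ˢ range H, √(v p.1 p.2) * √(w p.1 p.2) := by
        rw [Finset.mul_sum]
    _ ≤ ((H : ℝ) ^ 2)⁻¹ * (√(∑ p ∈ range H ×ˢ range H, v p.1 p.2) *
          √(∑ p ∈ range H ×ˢ range H, w p.1 p.2)) :=
        mul_le_mul_of_nonneg_left h4 (by positivity)
    _ = _ := by
        field_simp

/-- (C2). Induction on `L`; in the step `|S| ^ (2 ^ (k+1)) = (S ^ 2) ^ (2 ^ k) ≤ (E_{a,b} S_{a,b}) ^ (2 ^ k) ≤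
E_{a,b} |S_{a,b}| ^ (2 ^ k) ≤ E_{a,b} √al √phi ≤ √(E al) √(E phi)`. -/
theorem vdc_iter {X : Type} [MeasurableSpace X] {m : Measure X} [IsProbabilityMeasure m] {τ : ℤ → X → X} (hτ : IsAct m τ)
    (Q H : ℕ) (hQ : 1 ≤ Q) (hH : 1 ≤ H) (L : List (ℤ × (X → ℝ))) (hL : ∀ q ∈ L, Bd1 q.2) (j : ℤ) (g : X → ℝ) (hg : Bd1 g)
    (A : ℕ → ℝ) (hA : ∀ i, i < L.length * H ∨ Q ≤ i → A i = 0) :
    |(∑ i ∈ range Q, A i * corr m τ (L ++ [(j, g)]) i) / (Q : ℝ)| ^ (2 ^ L.length) ≤
      √(al Q H L.length A) * √(phi m τ H (L.map fun q => j - q.1) g) := by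
  obtain ⟨n, hn⟩ : ∃ n, L.length = n := ⟨_, rfl⟩
  induction n generalizing L j g A with
  | zero =>
    obtain rfl := List.eq_nil_of_length_eq_zero hn
    have h1 : ∀ i : ℕ, corr m τ ([] ++ [(j, g)]) i = ∫ x, g x ∂m := by
      intro i
      unfold corr
      rw [List.nil_append]
      simp only [List.map_cons, List.map_nil, List.prod_cons, List.prod_nil, mul_one]
      have h2 := (hτ.mp ((i : ℤ) * j))
      have h3 := integral_map (μ := m) (f := g) h2.measurable.aemeasurable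
        (by rw [h2.map_eq]; exact hg.1.aestronglyMeasurable)
      rw [h2.map_eq] at h3
      exact h3.symm
    simp only [h1]
    rw [← Finset.sum_mul, mul_div_right_comm, abs_mul, List.length_nil, pow_zero, pow_one,
      List.map_nil]
    change _ ≤ √(((∑ m ∈ range Q, A m) / (Q : ℝ)) ^ 2) * √((∫ x, g x ∂m) ^ 2)
    rw [Real.sqrt_sq_eq_abs, Real.sqrt_sq_eq_abs]
  | succ n ih =>
    obtain ⟨q₀, L', rfl⟩ := List.exists_of_length_succ _ hn
    obtain ⟨j₀, G⟩ := q₀
    rw [List.length_cons] at hn hA ⊢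
    have hn' : L'.length = n := by omega
    have hG : Bd1 G := hL (j₀, G) (List.mem_cons_self)
    have hL' : ∀ q ∈ L', Bd1 q.2 := fun q hq => hL q (List.mem_cons_of_mem _ hq)
    have h1 := vdc_one hτ (L' ++ [(j, g)]) (by
      intro q hq
      rcases List.mem_append.1 hq with h | h
      · exact hL' q h
      · rw [List.mem_singleton] at h
        rw [h]
        exact hg) j₀ G hG A Q H hQ hH (by
      intro i hi
      refine hA i (hi.imp (fun h => h.trans_le ?_) id)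
      exact Nat.le_mul_of_pos_left H (Nat.succ_pos _))
    rw [pow_succ, mul_comm, pow_mul, sq_abs]
    have hmap : ∀ (a b : ℕ), (vstep τ j₀ a b L').map (fun q => (j - j₀) - q.1) =
        L'.map (fun q => j - q.1) := by
      intro a b
      unfold vstep
      rw [List.map_map]
      exact List.map_congr_left fun q _ => by
        change (j - j₀) - (q.1 - j₀) = j - q.1
        ring
    refine iter_cs H hH (2 ^ L'.length)
      (fun a b => (∑ i ∈ range Q, (A (i + a) * A (i + b)) *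
        corr m τ (vstep τ j₀ a b (L' ++ [(j, g)])) i) / (Q : ℝ))
      (fun a b => al Q H L'.length (fun m => A (m + a) * A (m + b)))
      (fun a b => phi m τ H (L'.map fun q => j - q.1) (sh2 τ (j - j₀) a b g))
      (fun a b => al_nonneg _ _ _ _) (fun a b => phi_nonneg _ _ _ _ _) ?_ (sq_nonneg _) h1
    intro a ha b hb
    have ha' := Finset.mem_range.1 ha
    have hlen : (vstep τ j₀ a b L').length = L'.length := by
      unfold vstep
      rw [List.length_map]
    have h2 := ih (vstep τ j₀ a b L') (by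
      intro q hq
      obtain ⟨q', hq', rfl⟩ := List.mem_map.1 hq
      exact (hL' q' hq').sh2 hτ _ _ _) (j - j₀) (sh2 τ (j - j₀) a b g) (hg.sh2 hτ _ _ _)
      (fun m => A (m + a) * A (m + b)) (by
      intro i hi
      have h3 : A (i + a) = 0 := by
        apply hA
        rw [hlen] at hi
        rcases hi with hi | hi
        · left
          rw [Nat.succ_mul]
          omega
        · right
          omega
      rw [h3, zero_mul]) (hlen.trans hn')
    rw [hlen, hmap] at h2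
    have h4 : vstep τ j₀ a b (L' ++ [(j, g)]) =
        vstep τ j₀ a b L' ++ [(j - j₀, sh2 τ (j - j₀) a b g)] := by
      unfold vstep
      rw [List.map_append]
      rfl
    rw [h4]
    exact h2

end Pool.Agent.Lib.MP_3e612f_nt.ZE
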