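import Pool.Agent.Lib.MP_3e612f_nt.ZE.C.Ng

/-! Project ZE, part C: the scales (C5). -/

set_option autoImplicit false

namespace Pool.Agent.Lib.MP_3e612f_nt.ZE

open Finset MeasureTheory Filter Topology

private theorem scale_sh2_comm {X : Type} [MeasurableSpace X] {m : Measure X} {τ : ℤ → X → X} (hτ : IsAct m τ)
    (c d : ℤ) (a b a' b' : ℕ) (g : X → ℝ) :
    sh2 τ c a b (sh2 τ d a' b' g) = sh2 τ d a' b' (sh2 τ c a b g) := by
  have h : ∀ (u v : ℤ) (x : X), τ u (τ v x) = τ v (τ u x) := by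
    intro u v x
    rw [← hτ.add, ← hτ.add, add_comm]
  funext x
  unfold sh2
  rw [h (d * (a' : ℤ)) (c * (a : ℤ)) x, h (d * (b' : ℤ)) (c * (a : ℤ)) x,
    h (d * (a' : ℤ)) (c * (b : ℤ)) x, h (d * (b' : ℤ)) (c * (b : ℤ)) x]
  ring

/-- the order of the averages is irrelevant (induction on `List.Perm`; the swap is an exchange of finite sums) -/
theorem ng_perm {X : Type} [MeasurableSpace X] {m : Measure X} {τ : ℤ → X → X} (hτ : IsAct m τ) {l l' : List (ℤ × ℕ)}
    (h : l.Perm l') (g : X → ℝ) : ng m τ l g = ng m τ l' g := by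
  induction h generalizing g with
  | nil => rfl
  | cons q h ih =>
    simp only [ng]
    congr 1
    refine Finset.sum_congr rfl fun a _ => Finset.sum_congr rfl fun b _ => ?_
    exact ih _
  | swap q q' l =>
    simp only [ng]
    have h1 : ∀ a b : ℕ, (∑ c ∈ range q.2, ∑ d ∈ range q.2,
        ng m τ l (sh2 τ q.1 c d (sh2 τ q'.1 a b g))) / (q.2 : ℝ) ^ 2 =
        ∑ c ∈ range q.2, ∑ d ∈ range q.2,
        ng m τ l (sh2 τ q.1 c d (sh2 τ q'.1 a b g)) / (q.2 : ℝ) ^ 2 := by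
      intro a b
      simp only [Finset.sum_div]
    have h2 : ∀ a b : ℕ, (∑ c ∈ range q'.2, ∑ d ∈ range q'.2,
        ng m τ l (sh2 τ q'.1 c d (sh2 τ q.1 a b g))) / (q'.2 : ℝ) ^ 2 =
        ∑ c ∈ range q'.2, ∑ d ∈ range q'.2,
        ng m τ l (sh2 τ q'.1 c d (sh2 τ q.1 a b g)) / (q'.2 : ℝ) ^ 2 := by
      intro a b
      simp only [Finset.sum_div]
    have e1 : (∑ a ∈ range q'.2, ∑ b ∈ range q'.2, (∑ c ∈ range q.2, ∑ d ∈ range q.2,
        ng m τ l (sh2 τ q.1 c d (sh2 τ q'.1 a b g))) / (q.2 : ℝ) ^ 2) / (q'.2 : ℝ) ^ 2 =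
        ∑ p ∈ range q'.2 ×ˢ range q'.2, ∑ r ∈ range q.2 ×ˢ range q.2,
          ng m τ l (sh2 τ q.1 r.1 r.2 (sh2 τ q'.1 p.1 p.2 g)) / (q.2 : ℝ) ^ 2 / (q'.2 : ℝ) ^ 2 := by
      simp only [h1, Finset.sum_div, Finset.sum_product]
    have e2 : (∑ a ∈ range q.2, ∑ b ∈ range q.2, (∑ c ∈ range q'.2, ∑ d ∈ range q'.2,
        ng m τ l (sh2 τ q'.1 c d (sh2 τ q.1 a b g))) / (q'.2 : ℝ) ^ 2) / (q.2 : ℝ) ^ 2 =
        ∑ r ∈ range q.2 ×ˢ range q.2, ∑ p ∈ range q'.2 ×ˢ range q'.2,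
          ng m τ l (sh2 τ q'.1 p.1 p.2 (sh2 τ q.1 r.1 r.2 g)) / (q'.2 : ℝ) ^ 2 / (q.2 : ℝ) ^ 2 := by
      simp only [h2, Finset.sum_div, Finset.sum_product]
    rw [e1, e2, Finset.sum_comm]
    refine Finset.sum_congr rfl fun r _ => Finset.sum_congr rfl fun p _ => ?_
    rw [scale_sh2_comm hτ]
    ring
  | trans _ _ ih1 ih2 => rw [ih1, ih2]

private theorem scale_shift (u : ℕ → ℝ) (hu : ∀ n, |u n| ≤ 1) (N i : ℕ) :
    |∑ a ∈ range N, u a - ∑ a ∈ range N, u (a + i)| ≤ 2 * i := by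
  induction i with
  | zero => simp
  | succ i ih =>
    have h1 : ∑ a ∈ range N, u (a + (i + 1)) = ∑ a ∈ range N, u (a + i) + u (N + i) - u i := by
      have h2 := Finset.sum_range_succ (fun a => u (a + i)) N
      have h3 := Finset.sum_range_succ' (fun a => u (a + i)) N
      have h4 : ∑ a ∈ range N, u (a + (i + 1)) = ∑ a ∈ range N, u (a + 1 + i) := by
        refine Finset.sum_congr rfl fun a _ => ?_
        congr 1
        omega
      rw [h4]
      simp only [zero_add] at h3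
      linarith
    rw [h1]
    have h5 : ∑ a ∈ range N, u a - (∑ a ∈ range N, u (a + i) + u (N + i) - u i) =
        (∑ a ∈ range N, u a - ∑ a ∈ range N, u (a + i)) + (u i - u (N + i)) := by ring
    rw [h5]
    refine (abs_add_le _ _).trans ?_
    have h6 : |u i - u (N + i)| ≤ 2 := by
      refine (abs_sub _ _).trans ?_
      have := hu i
      have := hu (N + i)
      linarith
    push_cast
    linarith

private theorem scale_abs_avg (u : ℕ → ℝ) (hu : ∀ n, |u n| ≤ 1) {N : ℕ} (hN : 1 ≤ N) :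
    |(∑ a ∈ range N, u a) / (N : ℝ)| ≤ 1 := by
  have hN' : (0 : ℝ) < N := by exact_mod_cast hN
  rw [abs_div, abs_of_pos hN', div_le_one hN']
  refine (Finset.abs_sum_le_sum_abs _ _).trans ?_
  refine (Finset.sum_le_sum fun a _ => hu a).trans ?_
  simp

private theorem scale_sq_avg (u : ℕ → ℝ) {N : ℕ} (hN : 1 ≤ N) :
    ((∑ a ∈ range N, u a) / (N : ℝ)) ^ 2 ≤ (∑ a ∈ range N, u a ^ 2) / (N : ℝ) := by
  have hN' : (0 : ℝ) < N := by exact_mod_cast hN
  have h1 := sq_sum_le_card_mul_sum_sq (s := range N) (f := u)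
  rw [Finset.card_range] at h1
  rw [div_pow, div_le_div_iff₀ (by positivity) hN']
  nlinarith

/-- the pointwise inequality -/
private theorem scale_point (u : ℕ → ℝ) (hu : ∀ n, |u n| ≤ 1) {s s' : ℕ} (hs : 1 ≤ s) (hs' : 1 ≤ s') :
    ((∑ a ∈ range s', u a) / (s' : ℝ)) ^ 2 ≤
      (∑ a ∈ range s', ((∑ i ∈ range s, u (a + i)) / (s : ℝ)) ^ 2) / (s' : ℝ) + 4 * s / s' := by
  have hsp : (0 : ℝ) < s := by exact_mod_cast hs
  have hsp' : (0 : ℝ) < s' := by exact_mod_cast hs'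
  obtain ⟨S, hS⟩ : ∃ S : ℝ, S = (∑ a ∈ range s', u a) / (s' : ℝ) := ⟨_, rfl⟩
  obtain ⟨A, hA⟩ : ∃ A : ℝ, A = (∑ a ∈ range s', (∑ i ∈ range s, u (a + i)) / (s : ℝ)) / (s' : ℝ) := ⟨_, rfl⟩
  have h1 : A ^ 2 ≤ (∑ a ∈ range s', ((∑ i ∈ range s, u (a + i)) / (s : ℝ)) ^ 2) / (s' : ℝ) := by
    rw [hA]
    exact scale_sq_avg _ hs'
  have hS1 : |S| ≤ 1 := by rw [hS]; exact scale_abs_avg u hu hs'
  have hA1 : |A| ≤ 1 := by
    rw [hA]
    refine scale_abs_avg (fun a => (∑ i ∈ range s, u (a + i)) / (s : ℝ)) (fun a => ?_) hs'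
    exact scale_abs_avg (fun i => u (a + i)) (fun i => hu _) hs
  have h2 : |S - A| ≤ 2 * s / s' := by
    have h3 : A = (∑ i ∈ range s, ∑ a ∈ range s', u (a + i)) / (s : ℝ) / (s' : ℝ) := by
      rw [hA, ← Finset.sum_div, Finset.sum_comm]
    have h4 : S = (∑ i ∈ range s, ∑ a ∈ range s', u a) / (s : ℝ) / (s' : ℝ) := by
      rw [hS, Finset.sum_const, Finset.card_range, nsmul_eq_mul]
      field_simp
    rw [h3, h4, ← sub_div, ← sub_div, ← Finset.sum_sub_distrib, abs_div, abs_div,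
      abs_of_pos hsp, abs_of_pos hsp']
    refine div_le_div_of_nonneg_right ?_ hsp'.le
    rw [div_le_iff₀ hsp]
    refine (Finset.abs_sum_le_sum_abs _ _).trans ?_
    have h5 : ∀ i ∈ range s, |∑ a ∈ range s', u a - ∑ a ∈ range s', u (a + i)| ≤ 2 * (s : ℝ) := by
      intro i hi
      refine (scale_shift u hu s' i).trans ?_
      have : (i : ℝ) ≤ s := by exact_mod_cast (Finset.mem_range.1 hi).le
      linarith
    refine (Finset.sum_le_sum h5).trans ?_
    rw [Finset.sum_const, Finset.card_range, nsmul_eq_mul]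
    exact le_of_eq (by ring)
  have h3 : S ^ 2 - A ^ 2 ≤ 4 * s / s' := by
    have h4 : S ^ 2 - A ^ 2 = (S - A) * (S + A) := by ring
    rw [h4]
    refine (le_abs_self _).trans ?_
    rw [abs_mul]
    have h5 : |S + A| ≤ 2 := (abs_add_le _ _).trans (by linarith)
    calc |S - A| * |S + A| ≤ (2 * s / s') * 2 :=
          mul_le_mul h2 h5 (abs_nonneg _) (by positivity)
      _ = 4 * s / s' := by ring
  rw [← hS]
  linarith

private theorem scale_meas {X : Type} [MeasurableSpace X] {m : Measure X} {τ : ℤ → X → X} (hτ : IsAct m τ)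
    (s : ℕ) {g : X → ℝ} (hg : Bd1 g) :
    Measurable fun x => ((∑ i ∈ range s, g (τ ((i : ℕ) : ℤ) x)) / (s : ℝ)) ^ 2 := by
  refine ((Finset.measurable_sum _ fun i _ => ?_).div_const _).pow_const 2
  exact hg.1.comp (hτ.mp _).measurable

private theorem scale_bd {X : Type} {τ : ℤ → X → X}
    {s : ℕ} (hs : 1 ≤ s) {g : X → ℝ} (hg : ∀ x, |g x| ≤ 1) (x : X) :
    |((∑ i ∈ range s, g (τ ((i : ℕ) : ℤ) x)) / (s : ℝ)) ^ 2| ≤ 1 := by
  rw [abs_pow]
  refine pow_le_one₀ (abs_nonneg _) ?_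
  exact scale_abs_avg (fun i => g (τ ((i : ℕ) : ℤ) x)) (fun i => hg _) hs

private theorem scale_base {X : Type} [MeasurableSpace X] {m : Measure X} [IsProbabilityMeasure m] {τ : ℤ → X → X}
    (hτ : IsAct m τ) {s s' : ℕ} (hs : 1 ≤ s) (hss : s ≤ s') {g : X → ℝ} (hg : Bd1 g) :
    ng m τ [(1, s')] g ≤ ng m τ [(1, s)] g + 4 * s / s' := by
  have hs' : 1 ≤ s' := hs.trans hss
  have hsp' : (0 : ℝ) < s' := by exact_mod_cast hs'
  rw [ng_one hτ 1 s' hg, ng_one hτ 1 s hg]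
  simp only [one_mul]
  obtain ⟨f, hf⟩ : ∃ f : X → ℝ, f = fun x => ((∑ i ∈ range s, g (τ ((i : ℕ) : ℤ) x)) / (s : ℝ)) ^ 2 := ⟨_, rfl⟩
  have hfm : Measurable f := by rw [hf]; exact scale_meas hτ s hg
  have hfb : ∀ x, |f x| ≤ 1 := by intro x; rw [hf]; exact scale_bd hs hg.2 x
  have hBf : Bd1 f := ⟨hfm, hfb⟩
  have hfi : ∀ a : ℕ, Integrable (fun x => f (τ (a : ℤ) x)) m := fun a =>
    Bd1.integrable ⟨hfm.comp (hτ.mp _).measurable, fun x => hfb _⟩
  have hinv : ∀ a : ℕ, ∫ x, f (τ (a : ℤ) x) ∂m = ∫ x, f x ∂m := by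
    intro a
    have h1 : ∫ x, f x ∂(Measure.map (τ (a : ℤ)) m) = ∫ x, f (τ (a : ℤ) x) ∂m :=
      integral_map (hτ.mp _).measurable.aemeasurable
        (by rw [(hτ.mp _).map_eq]; exact hfm.aestronglyMeasurable)
    rw [← h1, (hτ.mp _).map_eq]
  have hpt : ∀ x, ((∑ a ∈ range s', g (τ ((a : ℕ) : ℤ) x)) / (s' : ℝ)) ^ 2 ≤
      (∑ a ∈ range s', f (τ (a : ℤ) x)) / (s' : ℝ) + 4 * s / s' := by
    intro x
    have h1 := scale_point (fun n => g (τ (n : ℤ) x)) (fun n => hg.2 _) hs hs'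
    refine h1.trans (le_of_eq ?_)
    congr 1
    congr 1
    refine Finset.sum_congr rfl fun a _ => ?_
    rw [hf]
    dsimp only
    congr 1
    congr 1
    refine Finset.sum_congr rfl fun i _ => ?_
    rw [← hτ.add]
    push_cast
    rw [add_comm]
  have hl : Integrable (fun x => ((∑ a ∈ range s', g (τ ((a : ℕ) : ℤ) x)) / (s' : ℝ)) ^ 2) m :=
    Bd1.integrable ⟨scale_meas hτ s' hg, fun x => scale_bd hs' hg.2 x⟩
  have hr1 : Integrable (fun x => (∑ a ∈ range s', f (τ (a : ℤ) x)) / (s' : ℝ)) m :=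
    (integrable_finsetSum _ fun a _ => hfi a).div_const _
  have hr : Integrable (fun x => (∑ a ∈ range s', f (τ (a : ℤ) x)) / (s' : ℝ) + 4 * s / s') m :=
    hr1.add (integrable_const _)
  refine (integral_mono hl hr hpt).trans (le_of_eq ?_)
  rw [integral_add hr1 (integrable_const _), integral_div, integral_finsetSum _ fun a _ => hfi a,
    Finset.sum_congr rfl fun a _ => hinv a, Finset.sum_const, Finset.card_range, nsmul_eq_mul,
    integral_const, hf]
  simp only [probReal_univ, one_smul]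
  field_simp

/-- the last scale can be made smaller: `|E_{a<s'} u_a| ≤ E_{a<s'} |E_{i<s} u_{a+i}| + 2 s / s'` for `|u| ≤ 1` -/
theorem ng_last {X : Type} [MeasurableSpace X] {m : Measure X} [IsProbabilityMeasure m] {τ : ℤ → X → X} (hτ : IsAct m τ)
    (l : List (ℤ × ℕ)) (hl : ∀ q ∈ l, 1 ≤ q.2) {s s' : ℕ} (hs : 1 ≤ s) (hss : s ≤ s') {g : X → ℝ} (hg : Bd1 g) :
    ng m τ (l ++ [(1, s')]) g ≤ ng m τ (l ++ [(1, s)]) g + 4 * s / s' := by
  induction l generalizing g with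
  | nil => exact scale_base hτ hs hss hg
  | cons q l ih =>
    have hq : (0 : ℝ) < q.2 := by exact_mod_cast hl q List.mem_cons_self
    have hl' : ∀ r ∈ l, 1 ≤ r.2 := fun r hr => hl r (List.mem_cons_of_mem _ hr)
    change (∑ a ∈ range q.2, ∑ b ∈ range q.2, ng m τ (l ++ [(1, s')]) (sh2 τ q.1 a b g)) / (q.2 : ℝ) ^ 2 ≤
      (∑ a ∈ range q.2, ∑ b ∈ range q.2, ng m τ (l ++ [(1, s)]) (sh2 τ q.1 a b g)) / (q.2 : ℝ) ^ 2 + 4 * s / s'
    have h1 : ∑ a ∈ range q.2, ∑ b ∈ range q.2, ng m τ (l ++ [(1, s')]) (sh2 τ q.1 a b g) ≤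
        ∑ a ∈ range q.2, ∑ b ∈ range q.2, (ng m τ (l ++ [(1, s)]) (sh2 τ q.1 a b g) + 4 * s / s') :=
      Finset.sum_le_sum fun a _ => Finset.sum_le_sum fun b _ => ih hl' (hg.sh2 hτ _ _ _)
    have h2 : ∑ a ∈ range q.2, ∑ b ∈ range q.2, (ng m τ (l ++ [(1, s)]) (sh2 τ q.1 a b g) + 4 * (s : ℝ) / s') =
        ∑ a ∈ range q.2, ∑ b ∈ range q.2, ng m τ (l ++ [(1, s)]) (sh2 τ q.1 a b g) +
          (q.2 : ℝ) ^ 2 * (4 * s / s') := by
      simp only [Finset.sum_add_distrib, Finset.sum_const, Finset.card_range, nsmul_eq_mul]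
      ring
    rw [h2] at h1
    rw [div_le_iff₀ (by positivity), add_mul, div_mul_cancel₀ _ (by positivity)]
    linarith

private theorem scale_aux {X : Type} [MeasurableSpace X] {m : Measure X} [IsProbabilityMeasure m] {τ : ℤ → X → X}
    (hτ : IsAct m τ) {s R : ℕ} (hs : 1 ≤ s) (hsR : s ≤ R) (ls : List ℕ) (hl : ∀ r ∈ ls, R ≤ r) {g : X → ℝ}
    (hg : Bd1 g) (t : List (ℤ × ℕ)) (ht : ∀ q ∈ t, 1 ≤ q.2) :
    ng m τ (ls.map (fun r => ((1 : ℤ), r)) ++ t) g ≤
      ng m τ (List.replicate ls.length ((1 : ℤ), s) ++ t) g + 4 * s * ls.length / R := by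
  have hR : (0 : ℝ) < R := by exact_mod_cast hs.trans hsR
  have hsp : (0 : ℝ) < s := by exact_mod_cast hs
  induction ls generalizing t with
  | nil => simp
  | cons r ls ih =>
    have hr : R ≤ r := hl r List.mem_cons_self
    have hl' : ∀ r ∈ ls, R ≤ r := fun r' hr' => hl r' (List.mem_cons_of_mem _ hr')
    have e1 : ng m τ ((r :: ls).map (fun r => ((1 : ℤ), r)) ++ t) g =
        ng m τ ((ls.map (fun r => ((1 : ℤ), r)) ++ t) ++ [(1, r)]) g := by
      refine ng_perm hτ ?_ g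
      rw [List.map_cons, List.cons_append]
      exact (List.perm_append_singleton _ _).symm
    have h1 : ng m τ ((ls.map (fun r => ((1 : ℤ), r)) ++ t) ++ [(1, r)]) g ≤
        ng m τ ((ls.map (fun r => ((1 : ℤ), r)) ++ t) ++ [(1, s)]) g + 4 * s / r := by
      refine ng_last hτ _ ?_ hs (hsR.trans hr) hg
      intro q hq
      rcases List.mem_append.1 hq with h2 | h2
      · obtain ⟨r', hr', rfl⟩ := List.mem_map.1 h2
        exact (hs.trans hsR).trans (hl' r' hr')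
      · exact ht q h2
    have h2 : (4 : ℝ) * s / r ≤ 4 * s / R := by
      refine div_le_div_of_nonneg_left (by positivity) hR ?_
      exact_mod_cast hr
    have h3 := ih hl' (t ++ [(1, s)]) (by
      intro q hq
      rcases List.mem_append.1 hq with h4 | h4
      · exact ht q h4
      · rw [List.mem_singleton.1 h4]
        exact hs)
    have e2 : ng m τ (List.replicate ls.length ((1 : ℤ), s) ++ (t ++ [(1, s)])) g =
        ng m τ (List.replicate (r :: ls).length ((1 : ℤ), s) ++ t) g := by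
      refine ng_perm hτ ?_ g
      rw [List.length_cons, List.replicate_succ, List.cons_append, ← List.append_assoc]
      exact List.perm_append_singleton _ _
    have e3 : (4 : ℝ) * s * (r :: ls).length / R = 4 * s * ls.length / R + 4 * s / R := by
      rw [List.length_cons]
      push_cast
      ring
    have e4 : ng m τ ((ls.map (fun r => ((1 : ℤ), r)) ++ t) ++ [(1, s)]) g =
        ng m τ (ls.map (fun r => ((1 : ℤ), r)) ++ (t ++ [(1, s)])) g := by
      rw [List.append_assoc]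
    rw [e4] at h1
    rw [e1, e3, ← e2]
    linarith

/-- all scales -/
theorem ng_scales {X : Type} [MeasurableSpace X] {m : Measure X} [IsProbabilityMeasure m] {τ : ℤ → X → X} (hτ : IsAct m τ)
    {s R : ℕ} (hs : 1 ≤ s) (hsR : s ≤ R) (ls : List ℕ) (hl : ∀ r ∈ ls, R ≤ r) {g : X → ℝ} (hg : Bd1 g) :
    ng m τ (ls.map fun r => ((1 : ℤ), r)) g ≤ ng m τ (List.replicate ls.length ((1 : ℤ), s)) g + 4 * s * ls.length / R := by
  have h := scale_aux hτ hs hsR ls hl hg [] (fun q hq => absurd hq List.not_mem_nil)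
  rw [List.append_nil, List.append_nil] at h
  exact h

end Pool.Agent.Lib.MP_3e612f_nt.ZE
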