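import Pool.Agent.Lib.MP_3e612f_nt.ZE.C.Iter
import Pool.Agent.Lib.MP_3e612f_nt.ZE.C.Dil
import Pool.Agent.Lib.MP_3e612f_nt.ZE.C.Scale
import Pool.Agent.Lib.MP_3e612f_nt.ZE.B.Main
import Pool.Agent.Lib.MP_3e612f_nt.ZE.B.Cheb

/-! Project ZE, part C: Theorem C (correlations over the primes). -/

set_option autoImplicit false

namespace Pool.Agent.Lib.MP_3e612f_nt.ZE

open Finset MeasureTheory Filter Topology

/-- `phi` at the scale `H` against the norm at a fixed scale `s`: `phi_le_ng`, `ng_dils`, `ng_scales`, `nrm_eq_ng`. -/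
theorem phi_le_nrm {X : Type} [MeasurableSpace X] {m : Measure X} [IsProbabilityMeasure m] {τ : ℤ → X → X} (hτ : IsAct m τ)
    (cs : List ℤ) (hc : ∀ c ∈ cs, c ≠ 0) {s H : ℕ} (hs : 1 ≤ s) (hsH : s ≤ H) {g : X → ℝ} (hg : Bd1 g) :
    phi m τ H cs g ≤ (cs.map fun c => (c : ℝ) ^ 2).prod * (nrm m τ s cs.length g + 4 * s * (cs.length + 1) / H) := by
  have hH : 1 ≤ H := hs.trans hsH
  refine (phi_le_ng hτ H hH cs hg).trans ((ng_dils hτ cs hc hH hg).trans ?_)
  have h0 : 0 ≤ (cs.map fun c => (c : ℝ) ^ 2).prod := by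
    refine List.prod_nonneg fun a ha => ?_
    obtain ⟨c, -, rfl⟩ := List.mem_map.1 ha
    positivity
  refine mul_le_mul_of_nonneg_left ?_ h0
  have h1 := ng_scales hτ hs hsH (cs.map (fun c => c.natAbs * H) ++ [H]) (fun r hr => by
    rcases List.mem_append.1 hr with h | h
    · obtain ⟨c, hcc, rfl⟩ := List.mem_map.1 h
      exact Nat.le_mul_of_pos_left H (Int.natAbs_pos.2 (hc c hcc))
    · rw [List.mem_singleton.1 h]) hg
  have e1 : (cs.map (fun c => c.natAbs * H) ++ [H]).map (fun r => ((1 : ℤ), r)) =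
      cs.map (fun c => ((1 : ℤ), c.natAbs * H)) ++ [(1, H)] := by
    rw [List.map_append, List.map_map]
    rfl
  have e2 : (cs.map (fun c => c.natAbs * H) ++ [H]).length = cs.length + 1 := by simp
  rw [e1, e2] at h1
  rw [nrm_eq_ng hτ s cs.length hg]
  push_cast at h1
  exact h1

private theorem cm_sum (P : ℕ) (f : ℕ → ℝ) :
    ∑ i ∈ range (4 * P + 1), wtp P i * f i = Real.log P * ∑ p ∈ PP P, f p := by
  rw [Finset.mul_sum]
  unfold wtp
  have h1 : PP P ⊆ range (4 * P + 1) := by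
    intro p hp
    rw [PP, mem_filter, mem_Ioc] at hp
    rw [mem_range]
    omega
  rw [← Finset.sum_subset h1]
  · refine Finset.sum_congr rfl fun p hp => ?_
    rw [if_pos hp]
  · intro p _ hp
    rw [if_neg hp, zero_mul]

/-- the average over the primes against the weighted average: `vdc_iter` with `Q = 4 P + 1`, `H = Nat.sqrt P`, `A = wtp P`
(which vanishes below `P`, and `k H ≤ P` for `P ≥ k ^ 2`), `al_le`, `card_PP_ge`. -/
theorem corr_le {X : Type} [MeasurableSpace X] {m : Measure X} [IsProbabilityMeasure m] {τ : ℤ → X → X} (hτ : IsAct m τ)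
    (k : ℕ) : ∃ (C : ℝ) (P₀ : ℕ), 0 < C ∧ ∀ P ≥ P₀, ∀ (L : List (ℤ × (X → ℝ))), L.length = k → (∀ q ∈ L, Bd1 q.2) →
      ∀ (j : ℤ) (g : X → ℝ), Bd1 g →
      |pav P (fun p => corr m τ (L ++ [(j, g)]) p)| ^ (2 ^ k) ≤ C * √(phi m τ (Nat.sqrt P) (L.map fun q => j - q.1) g) := by
  obtain ⟨C, P₁, hC, h1⟩ := al_le k
  obtain ⟨P₂, h16, h2⟩ := card_PP_ge
  refine ⟨10 ^ (2 ^ k) * √C, max P₁ (max P₂ (k ^ 2)), by positivity, fun P hP L hk hL j g hg => ?_⟩
  have hP1 : P₁ ≤ P := (le_max_left _ _).trans hP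
  have hP2 : P₂ ≤ P := (le_max_left _ _).trans ((le_max_right _ _).trans hP)
  have hPk : k ^ 2 ≤ P := (le_max_right _ _).trans ((le_max_right _ _).trans hP)
  have hP16 : 16 ≤ P := h16.trans hP2
  have hPr : (16 : ℝ) ≤ P := by exact_mod_cast hP16
  have hH : 1 ≤ Nat.sqrt P := Nat.sqrt_pos.2 (by omega)
  have hkP : k * Nat.sqrt P ≤ P := by
    have ha : k ≤ Nat.sqrt P := Nat.le_sqrt'.2 hPk
    exact (Nat.mul_le_mul_right _ ha).trans (Nat.sqrt_le P)
  have hv := vdc_iter hτ (4 * P + 1) (Nat.sqrt P) (by omega) hH L hL j g hg (wtp P) (by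
    intro i hi
    unfold wtp
    rw [if_neg]
    intro hmem
    rw [PP, mem_filter, mem_Ioc] at hmem
    rw [hk] at hi
    omega)
  rw [hk, cm_sum] at hv
  have hlog : 0 < Real.log P := Real.log_pos (by linarith)
  have hcard := h2 P hP2
  have hc0 : (0 : ℝ) < ((PP P).card : ℝ) := lt_of_lt_of_le (by positivity) hcard
  set S : ℝ := Real.log P * (∑ p ∈ PP P, corr m τ (L ++ [(j, g)]) p) / ((4 * P + 1 : ℕ) : ℝ) with hS
  have e1 : pav P (fun p => corr m τ (L ++ [(j, g)]) p) =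
      S * (((4 * P + 1 : ℕ) : ℝ) / (Real.log P * (PP P).card)) := by
    rw [hS]
    unfold pav
    have hq : (((4 * P + 1 : ℕ) : ℝ)) ≠ 0 := by positivity
    field_simp
  have h3 : ((4 * P + 1 : ℕ) : ℝ) / (Real.log P * (PP P).card) ≤ 10 := by
    rw [div_le_iff₀ (by positivity)]
    rw [div_le_iff₀ (by positivity)] at hcard
    push_cast
    nlinarith
  have h4 : |pav P (fun p => corr m τ (L ++ [(j, g)]) p)| ≤ |S| * 10 := by
    rw [e1, abs_mul]
    refine mul_le_mul_of_nonneg_left ?_ (abs_nonneg _)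
    rw [abs_of_nonneg (by positivity)]
    exact h3
  calc |pav P (fun p => corr m τ (L ++ [(j, g)]) p)| ^ (2 ^ k) ≤ (|S| * 10) ^ (2 ^ k) :=
        pow_le_pow_left₀ (abs_nonneg _) h4 _
    _ = 10 ^ (2 ^ k) * |S| ^ (2 ^ k) := by rw [mul_pow]; ring
    _ ≤ 10 ^ (2 ^ k) * (√(al (4 * P + 1) (Nat.sqrt P) k (wtp P)) *
        √(phi m τ (Nat.sqrt P) (L.map fun q => j - q.1) g)) :=
        mul_le_mul_of_nonneg_left hv (by positivity)
    _ ≤ 10 ^ (2 ^ k) * (√C * √(phi m τ (Nat.sqrt P) (L.map fun q => j - q.1) g)) := by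
        refine mul_le_mul_of_nonneg_left ?_ (by positivity)
        exact mul_le_mul_of_nonneg_right (Real.sqrt_le_sqrt (h1 P hP1)) (Real.sqrt_nonneg _)
    _ = _ := by ring

/-- **Theorem C.** -/
theorem corr_null {X : Type} [MeasurableSpace X] {m : Measure X} [IsProbabilityMeasure m] {τ : ℤ → X → X} (hτ : IsAct m τ)
    (L : List (ℤ × (X → ℝ))) (hL : ∀ q ∈ L, Bd1 q.2) (j : ℤ) (g : X → ℝ) (hg : Bd1 g) (hj : ∀ q ∈ L, q.1 ≠ j)
    (hN : Null m τ L.length g) : Tendsto (fun P => pav P (fun p => corr m τ (L ++ [(j, g)]) p)) atTop (𝓝 0) := by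
  obtain ⟨C, P₀, hC, h1⟩ := corr_le (m := m) hτ L.length
  set cs : List ℤ := L.map fun q => j - q.1 with hcs
  have hc : ∀ c ∈ cs, c ≠ 0 := by
    intro c hcc
    rw [hcs] at hcc
    obtain ⟨q, hq, rfl⟩ := List.mem_map.1 hcc
    exact sub_ne_zero.2 (hj q hq).symm
  have hlen : cs.length = L.length := by rw [hcs, List.length_map]
  set K : ℝ := (cs.map fun c => (c : ℝ) ^ 2).prod with hK
  have hK0 : 0 ≤ K := by
    refine List.prod_nonneg fun a ha => ?_
    obtain ⟨c, -, rfl⟩ := List.mem_map.1 ha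
    positivity
  rw [Metric.tendsto_atTop]
  intro e he
  -- the target for the root
  set e' : ℝ := (e / 2) ^ (2 ^ L.length) / C with he'
  have he'0 : 0 < e' := by positivity
  set d : ℝ := e' ^ 2 / (2 * (K + 1)) with hd
  have hd0 : 0 < d := by positivity
  obtain ⟨s, hs, hsd⟩ := hN d hd0
  have h2 : ∃ H₀ : ℕ, s ≤ H₀ ∧ ∀ H ≥ H₀, 4 * (s : ℝ) * (L.length + 1) / H ≤ d := by
    refine ⟨max s (⌈4 * (s : ℝ) * (L.length + 1) / d⌉₊ + 1), le_max_left _ _, fun H hH => ?_⟩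
    have ha : ⌈4 * (s : ℝ) * (L.length + 1) / d⌉₊ + 1 ≤ H := (le_max_right _ _).trans hH
    have hb : 4 * (s : ℝ) * (L.length + 1) / d ≤ H := (Nat.le_ceil _).trans (by exact_mod_cast (by omega : ⌈4 * (s : ℝ) * (L.length + 1) / d⌉₊ ≤ H))
    have hH0 : (0 : ℝ) < H := by exact_mod_cast (by omega : 0 < H)
    rw [div_le_iff₀ hd0] at hb
    rw [div_le_iff₀ hH0]
    linarith
  obtain ⟨H₀, hsH, hH₀⟩ := h2
  refine ⟨max P₀ (H₀ ^ 2), fun P hP => ?_⟩
  have hP0 : P₀ ≤ P := (le_max_left _ _).trans hP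
  have hPH : H₀ ≤ Nat.sqrt P := Nat.le_sqrt'.2 ((le_max_right _ _).trans hP)
  have h3 := h1 P hP0 L rfl hL j g hg
  have h4 := phi_le_nrm hτ cs hc hs (hsH.trans hPH) hg
  rw [hlen] at h4
  have h5 : phi m τ (Nat.sqrt P) cs g ≤ e' ^ 2 := by
    have h6 : nrm m τ s L.length g + 4 * (s : ℝ) * (L.length + 1) / (Nat.sqrt P : ℕ) ≤ 2 * d := by
      have := hH₀ _ hPH
      linarith
    calc phi m τ (Nat.sqrt P) cs g ≤ K * (nrm m τ s L.length g + 4 * (s : ℝ) * (L.length + 1) / (Nat.sqrt P : ℕ)) := h4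
      _ ≤ K * (2 * d) := mul_le_mul_of_nonneg_left h6 hK0
      _ ≤ (K + 1) * (2 * d) := mul_le_mul_of_nonneg_right (by linarith) (by positivity)
      _ = e' ^ 2 := by rw [hd]; field_simp
  have h7 : √(phi m τ (Nat.sqrt P) cs g) ≤ e' := by
    rw [← Real.sqrt_sq he'0.le]
    exact Real.sqrt_le_sqrt h5
  have h8 : |pav P (fun p => corr m τ (L ++ [(j, g)]) p)| ^ (2 ^ L.length) ≤ (e / 2) ^ (2 ^ L.length) := by
    refine h3.trans ((mul_le_mul_of_nonneg_left h7 hC.le).trans (le_of_eq ?_))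
    rw [he']
    field_simp
  have h9 : |pav P (fun p => corr m τ (L ++ [(j, g)]) p)| ≤ e / 2 :=
    le_of_pow_le_pow_left₀ (by positivity) (by positivity) h8
  rw [Real.dist_eq, sub_zero]
  linarith

/-- the same function at all places of a finite set -/
theorem corr_set {X : Type} [MeasurableSpace X] {m : Measure X} [IsProbabilityMeasure m] {τ : ℤ → X → X} (hτ : IsAct m τ)
    (S : Finset ℕ) (hS : S.Nonempty) (g : X → ℝ) (hg : Bd1 g) (hN : Null m τ (S.card - 1) g) :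
    Tendsto (fun P => pav P (fun p => ∫ x, ∏ j ∈ S, g (τ ((p : ℤ) * (j : ℤ)) x) ∂m)) atTop (𝓝 0) := by
  classical
  obtain ⟨j₀, hj₀⟩ := hS
  set L : List (ℤ × (X → ℝ)) := (S.erase j₀).toList.map (fun j : ℕ => ((j : ℤ), g)) with hL
  have hlen : L.length = S.card - 1 := by
    rw [hL, List.length_map, Finset.length_toList, Finset.card_erase_of_mem hj₀]
  have h := corr_null hτ L (fun q hq => by
    rw [hL] at hq
    obtain ⟨j, -, rfl⟩ := List.mem_map.1 hq
    exact hg) (j₀ : ℤ) g hg (fun q hq => by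
    rw [hL] at hq
    obtain ⟨j, hj, rfl⟩ := List.mem_map.1 hq
    have h1 := Finset.ne_of_mem_erase (Finset.mem_toList.1 hj)
    exact fun h2 => h1 (Int.ofNat_inj.1 h2)) (by rw [hlen]; exact hN)
  refine h.congr fun P => ?_
  congr 1
  funext p
  unfold corr
  congr 1
  funext x
  rw [List.map_append, List.prod_append, hL, List.map_map, ← Finset.prod_erase_mul S _ hj₀]
  congr 1
  · exact Finset.prod_map_toList (S.erase j₀) (fun j => g (τ ((p : ℤ) * (j : ℤ)) x))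
  · simp

end Pool.Agent.Lib.MP_3e612f_nt.ZE
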