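import Pool.Agent.Lib.MP_3e612f_nt.ZE.C.Base

/-! Project ZE, part C: the functionals `ng` (C3) and dilations (C4). -/

set_option autoImplicit false

namespace Pool.Agent.Lib.MP_3e612f_nt.ZE

open Finset MeasureTheory Filter Topology

theorem ng_one {X : Type} [MeasurableSpace X] {m : Measure X} [IsProbabilityMeasure m] {τ : ℤ → X → X} (hτ : IsAct m τ)
    (c : ℤ) (s : ℕ) {g : X → ℝ} (hg : Bd1 g) :
    ng m τ [(c, s)] g = ∫ x, ((∑ a ∈ range s, g (τ (c * (a : ℤ)) x)) / (s : ℝ)) ^ 2 ∂m := by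
  have hi : ∀ a b : ℕ, Integrable (sh2 τ c a b g) m := fun a b => (hg.sh2 hτ c a b).integrable
  have h1 : ∀ x, ((∑ a ∈ range s, g (τ (c * (a : ℤ)) x)) / (s : ℝ)) ^ 2 =
      (∑ a ∈ range s, ∑ b ∈ range s, sh2 τ c a b g x) / (s : ℝ) ^ 2 := by
    intro x
    rw [div_pow, pow_two (∑ a ∈ range s, g (τ (c * (a : ℤ)) x)), Finset.sum_mul_sum]
    rfl
  simp only [h1]
  rw [integral_div, integral_finsetSum _ (fun a _ => integrable_finsetSum _ fun b _ => hi a b)]
  change (∑ a ∈ range s, ∑ b ∈ range s, ∫ x, sh2 τ c a b g x ∂m) / (s : ℝ) ^ 2 = _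
  congr 1
  refine Finset.sum_congr rfl fun a _ => ?_
  rw [integral_finsetSum _ (fun b _ => hi a b)]

theorem ng_nonneg {X : Type} [MeasurableSpace X] {m : Measure X} [IsProbabilityMeasure m] {τ : ℤ → X → X} (hτ : IsAct m τ)
    {l : List (ℤ × ℕ)} (hl : l ≠ []) {g : X → ℝ} (hg : Bd1 g) : 0 ≤ ng m τ l g := by
  induction l generalizing g with
  | nil => exact absurd rfl hl
  | cons q l ih =>
    cases l with
    | nil =>
      obtain ⟨c, s⟩ := q
      rw [ng_one hτ c s hg]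
      exact integral_nonneg fun x => sq_nonneg _
    | cons q' l =>
      change 0 ≤ (∑ a ∈ range q.2, ∑ b ∈ range q.2, ng m τ (q' :: l) (sh2 τ q.1 a b g)) /
        (q.2 : ℝ) ^ 2
      refine div_nonneg (Finset.sum_nonneg fun a _ => Finset.sum_nonneg fun b _ => ?_)
        (sq_nonneg _)
      exact ih (List.cons_ne_nil _ _) (hg.sh2 hτ q.1 a b)

theorem ng_inv {X : Type} [MeasurableSpace X] {m : Measure X} [IsProbabilityMeasure m] {τ : ℤ → X → X} (hτ : IsAct m τ)
    (l : List (ℤ × ℕ)) {g : X → ℝ} (hg : Bd1 g) (n : ℤ) : ng m τ l (fun x => g (τ n x)) = ng m τ l g := by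
  induction l generalizing g with
  | nil =>
    change ∫ x, g (τ n x) ∂m = ∫ x, g x ∂m
    have h := integral_map (μ := m) (hτ.mp n).measurable.aemeasurable
      (f := g) (hg.1.aestronglyMeasurable)
    rw [(hτ.mp n).map_eq] at h
    exact h.symm
  | cons q l ih =>
    change (∑ a ∈ range q.2, ∑ b ∈ range q.2,
        ng m τ l (sh2 τ q.1 a b (fun x => g (τ n x)))) / (q.2 : ℝ) ^ 2 =
      (∑ a ∈ range q.2, ∑ b ∈ range q.2, ng m τ l (sh2 τ q.1 a b g)) / (q.2 : ℝ) ^ 2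
    congr 1
    refine Finset.sum_congr rfl fun a _ => Finset.sum_congr rfl fun b _ => ?_
    have h : sh2 τ q.1 a b (fun x => g (τ n x)) = fun x => sh2 τ q.1 a b g (τ n x) := by
      funext x
      unfold sh2
      have h1 : ∀ k : ℤ, τ n (τ k x) = τ k (τ n x) := by
        intro k
        rw [← hτ.add, ← hτ.add, add_comm]
      change g (τ n (τ (q.1 * (a : ℤ)) x)) * g (τ n (τ (q.1 * (b : ℤ)) x)) = _
      rw [h1, h1]
    rw [h]
    exact ih (hg.sh2 hτ q.1 a b)

private theorem ng_jensen {X : Type} [MeasurableSpace X] {m : Measure X} [IsProbabilityMeasure m]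
    {f : X → ℝ} (hf : Bd1 f) : (∫ x, f x ∂m) ^ 2 ≤ ∫ x, f x ^ 2 ∂m := by
  have h2 : Bd1 (fun x => f x ^ 2) := by
    refine ⟨hf.1.pow_const 2, fun x => ?_⟩
    rw [abs_pow]
    exact pow_le_one₀ (abs_nonneg _) (hf.2 x)
  set c : ℝ := ∫ x, f x ∂m with hc
  have h3 : 0 ≤ ∫ x, (f x - c) ^ 2 ∂m := integral_nonneg fun x => sq_nonneg _
  have h4 : ∫ x, (f x - c) ^ 2 ∂m = ∫ x, f x ^ 2 ∂m - c ^ 2 := by
    have h5 : ∀ x, (f x - c) ^ 2 = f x ^ 2 - 2 * c * f x + c ^ 2 := fun x => by ring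
    simp only [h5]
    have h6 : Integrable (fun x => 2 * c * f x) m := hf.integrable.const_mul (2 * c)
    have h7 : Integrable (fun x => f x ^ 2 - 2 * c * f x) m := h2.integrable.sub h6
    rw [integral_add h7 (integrable_const _),
      integral_sub h2.integrable h6, integral_const_mul, integral_const, ← hc]
    simp only [probReal_univ, smul_eq_mul]
    ring
  linarith

theorem phi_le_ng {X : Type} [MeasurableSpace X] {m : Measure X} [IsProbabilityMeasure m] {τ : ℤ → X → X} (hτ : IsAct m τ)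
    (H : ℕ) (hH : 1 ≤ H) (cs : List ℤ) {g : X → ℝ} (hg : Bd1 g) :
    phi m τ H cs g ≤ ng m τ (cs.map (fun c => (c, H)) ++ [(1, H)]) g := by
  induction cs generalizing g with
  | nil =>
    rw [List.map_nil, List.nil_append, ng_one hτ 1 H hg]
    change (∫ x, g x ∂m) ^ 2 ≤ _
    have hH0 : (0 : ℝ) < H := by exact_mod_cast (by omega : 0 < H)
    have hf : Bd1 (fun x => (∑ a ∈ range H, g (τ (1 * (a : ℤ)) x)) / (H : ℝ)) := by
      refine ⟨(Finset.measurable_sum _ fun a _ => hg.1.comp (hτ.mp _).measurable).div_const _,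
        fun x => ?_⟩
      rw [abs_div, abs_of_pos hH0, div_le_one hH0]
      refine (Finset.abs_sum_le_sum_abs _ _).trans ?_
      refine (Finset.sum_le_sum fun a _ => hg.2 _).trans ?_
      rw [Finset.sum_const, card_range, nsmul_eq_mul, mul_one]
    have h1 : ∫ x, g x ∂m = ∫ x, (∑ a ∈ range H, g (τ (1 * (a : ℤ)) x)) / (H : ℝ) ∂m := by
      rw [integral_div, integral_finsetSum _ (fun a _ => ?_)]
      · have h2 : ∀ a ∈ range H, ∫ x, g (τ (1 * (a : ℤ)) x) ∂m = ∫ x, g x ∂m := fun a _ =>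
          ng_inv hτ [] hg (1 * (a : ℤ))
        rw [Finset.sum_congr rfl h2, Finset.sum_const, card_range, nsmul_eq_mul]
        field_simp
      · exact (Bd1.integrable (m := m) ⟨hg.1.comp (hτ.mp _).measurable, fun x => hg.2 _⟩)
    rw [h1]
    exact ng_jensen hf
  | cons c cs ih =>
    change (∑ a ∈ range H, ∑ b ∈ range H, phi m τ H cs (sh2 τ c a b g)) / (H : ℝ) ^ 2 ≤
      (∑ a ∈ range H, ∑ b ∈ range H,
        ng m τ (cs.map (fun c => (c, H)) ++ [(1, H)]) (sh2 τ c a b g)) / (H : ℝ) ^ 2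
    refine div_le_div_of_nonneg_right ?_ (sq_nonneg _)
    exact Finset.sum_le_sum fun a _ => Finset.sum_le_sum fun b _ => ih (hg.sh2 hτ c a b)

theorem nrm_eq_ng {X : Type} [MeasurableSpace X] {m : Measure X} [IsProbabilityMeasure m] {τ : ℤ → X → X} (hτ : IsAct m τ)
    (H k : ℕ) {g : X → ℝ} (hg : Bd1 g) : nrm m τ H k g = ng m τ (List.replicate (k + 1) ((1 : ℤ), H)) g := by
  induction k generalizing g with
  | zero =>
    change _ = ng m τ [((1 : ℤ), H)] g
    rw [ng_one hτ 1 H hg]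
    simp only [one_mul]
    rfl
  | succ k ih =>
    change (∑ a ∈ range H, ∑ b ∈ range H,
        nrm m τ H k (fun x => g (τ (a : ℤ) x) * g (τ (b : ℤ) x))) / (H : ℝ) ^ 2 =
      (∑ a ∈ range H, ∑ b ∈ range H,
        ng m τ (List.replicate (k + 1) ((1 : ℤ), H)) (sh2 τ 1 a b g)) / (H : ℝ) ^ 2
    congr 1
    refine Finset.sum_congr rfl fun a _ => Finset.sum_congr rfl fun b _ => ?_
    have h : (fun x => g (τ (a : ℤ) x) * g (τ (b : ℤ) x)) = sh2 τ 1 a b g := by
      funext x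
      unfold sh2
      rw [one_mul, one_mul]
    rw [h]
    exact ih (hg.sh2 hτ 1 a b)

end Pool.Agent.Lib.MP_3e612f_nt.ZE
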