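import Pool.Agent.Lib.MP_3e612f_nt.ZE.C.Base

/-! Project ZE, part C: one van der Corput step with weights (C1). -/

set_option autoImplicit false

namespace Pool.Agent.Lib.MP_3e612f_nt.ZE

open Finset MeasureTheory Filter Topology

section aux

variable {X : Type} [MeasurableSpace X] {m : Measure X} {τ : ℤ → X → X}

/-- the product without the pivot -/
private noncomputable def vOneF (τ : ℤ → X → X) (L : List (ℤ × (X → ℝ))) (j : ℤ) (i : ℕ) (x : X) : ℝ :=
  (L.map fun q => q.2 (τ ((i : ℤ) * (q.1 - j)) x)).prod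

private theorem vOneF_cons (q : ℤ × (X → ℝ)) (L : List (ℤ × (X → ℝ))) (j : ℤ) (i : ℕ) (x : X) :
    vOneF τ (q :: L) j i x = q.2 (τ ((i : ℤ) * (q.1 - j)) x) * vOneF τ L j i x := by
  unfold vOneF
  rw [List.map_cons, List.prod_cons]

private theorem vOneF_bd (hτ : IsAct m τ) (L : List (ℤ × (X → ℝ))) (hL : ∀ q ∈ L, Bd1 q.2) (j : ℤ)
    (i : ℕ) : Bd1 (vOneF τ L j i) := by
  induction L with
  | nil =>
    refine ⟨measurable_const, fun x => ?_⟩
    unfold vOneF
    rw [List.map_nil, List.prod_nil, abs_one]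
  | cons q L ih =>
    have h1 := ih fun q' hq' => hL q' (List.mem_cons_of_mem _ hq')
    have h2 := hL q List.mem_cons_self
    have e : vOneF τ (q :: L) j i = fun x => q.2 (τ ((i : ℤ) * (q.1 - j)) x) * vOneF τ L j i x :=
      funext fun x => vOneF_cons q L j i x
    rw [e]
    refine ⟨(h2.1.comp (hτ.mp _).measurable).mul h1.1, fun x => ?_⟩
    rw [abs_mul]
    exact mul_le_one₀ (h2.2 _) (abs_nonneg _) (h1.2 _)

private theorem vOne_inv (hτ : IsAct m τ) (n : ℤ) {f : X → ℝ} (hf : Measurable f) :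
    ∫ x, f (τ n x) ∂m = ∫ x, f x ∂m := by
  have h := integral_map (μ := m) (hτ.mp n).measurable.aemeasurable (f := f)
    hf.aestronglyMeasurable
  rw [(hτ.mp n).map_eq] at h
  exact h.symm

private theorem vOne_corr (hτ : IsAct m τ) (L : List (ℤ × (X → ℝ))) (hL : ∀ q ∈ L, Bd1 q.2) (j : ℤ)
    (G : X → ℝ) (hG : Bd1 G) (i : ℕ) :
    corr m τ ((j, G) :: L) i = ∫ x, G x * vOneF τ L j i x ∂m := by
  have h1 := vOne_inv hτ ((i : ℤ) * j) (f := fun x => G x * vOneF τ L j i x)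
    (hG.1.mul (vOneF_bd hτ L hL j i).1)
  rw [← h1]
  unfold corr
  refine integral_congr_ae (ae_of_all _ fun x => ?_)
  change (List.map (fun q : ℤ × (X → ℝ) => q.2 (τ ((i : ℤ) * q.1) x)) ((j, G) :: L)).prod =
    G (τ ((i : ℤ) * j) x) * vOneF τ L j i (τ ((i : ℤ) * j) x)
  rw [List.map_cons, List.prod_cons]
  unfold vOneF
  congr 2
  refine List.map_congr_left fun q _ => ?_
  have h : (i : ℤ) * (q.1 - j) + (i : ℤ) * j = (i : ℤ) * q.1 := by ring
  rw [← hτ.add, h]

private theorem vOne_step (hτ : IsAct m τ) (L : List (ℤ × (X → ℝ))) (j : ℤ) (a b i : ℕ) :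
    corr m τ (vstep τ j a b L) i = ∫ x, vOneF τ L j (i + a) x * vOneF τ L j (i + b) x ∂m := by
  unfold corr vstep
  refine integral_congr_ae (ae_of_all _ fun x => ?_)
  unfold vOneF
  change (List.map (fun q : ℤ × (X → ℝ) => q.2 (τ ((i : ℤ) * q.1) x))
    (List.map (fun q : ℤ × (X → ℝ) => (q.1 - j, sh2 τ (q.1 - j) a b q.2)) L)).prod =
    (List.map (fun q : ℤ × (X → ℝ) => q.2 (τ (((i + a : ℕ) : ℤ) * (q.1 - j)) x)) L).prod *
      (List.map (fun q : ℤ × (X → ℝ) => q.2 (τ (((i + b : ℕ) : ℤ) * (q.1 - j)) x)) L).prod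
  rw [List.map_map, ← List.prod_map_mul]
  congr 1
  refine List.map_congr_left fun q _ => ?_
  change q.2 (τ ((q.1 - j) * (a : ℤ)) (τ ((i : ℤ) * (q.1 - j)) x)) *
    q.2 (τ ((q.1 - j) * (b : ℤ)) (τ ((i : ℤ) * (q.1 - j)) x)) = _
  have h : ∀ c : ℕ, (q.1 - j) * (c : ℤ) + (i : ℤ) * (q.1 - j) = ((i + c : ℕ) : ℤ) * (q.1 - j) := by
    intro c
    push_cast
    ring
  rw [← hτ.add, ← hτ.add, h, h]

private theorem vOne_shift (g : ℕ → ℝ) (Q H a : ℕ) (ha : a < H) (hg : ∀ i, i < H ∨ Q ≤ i → g i = 0) :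
    ∑ i ∈ range Q, g (i + a) = ∑ i ∈ range Q, g i := by
  have h1 : ∑ i ∈ range (a + Q), g i = ∑ i ∈ range Q, g (i + a) := by
    rw [Finset.sum_range_add, Finset.sum_eq_zero, zero_add]
    · exact Finset.sum_congr rfl fun i _ => by rw [add_comm]
    · intro i hi
      exact hg i (Or.inl ((Finset.mem_range.1 hi).trans ha))
  have h2 : ∑ i ∈ range (Q + a), g i = ∑ i ∈ range Q, g i := by
    rw [Finset.sum_range_add, Finset.sum_eq_zero (s := range a), add_zero]
    intro i _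
    exact hg _ (Or.inr (Nat.le_add_right Q i))
  rw [← h1, add_comm, h2]

private theorem vOne_sq [IsProbabilityMeasure m] {f : X → ℝ} (hf : Integrable f m)
    (hf2 : Integrable (fun x => f x ^ 2) m) : (∫ x, f x ∂m) ^ 2 ≤ ∫ x, f x ^ 2 ∂m := by
  have h1 : 0 ≤ ∫ x, (f x - ∫ y, f y ∂m) ^ 2 ∂m := integral_nonneg fun x => sq_nonneg _
  have h2 : ∀ x, (f x - ∫ y, f y ∂m) ^ 2 =
      f x ^ 2 - (2 * (∫ y, f y ∂m) * f x - (∫ y, f y ∂m) ^ 2) := fun x => by ring
  simp only [h2] at h1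
  have h3 : Integrable (fun x => 2 * (∫ y, f y ∂m) * f x) m := hf.const_mul _
  have h4 : Integrable (fun x => 2 * (∫ y, f y ∂m) * f x - (∫ y, f y ∂m) ^ 2) m :=
    h3.sub (integrable_const _)
  rw [integral_sub hf2 h4, integral_sub h3 (integrable_const _),
    integral_const_mul, integral_const, probReal_univ, one_smul] at h1
  nlinarith

end aux

/-- (C1). Proof: `corr ((j, G) :: L) i = ∫ G x * ∏ q.2 (τ (i * (q.1 - j)) x)` (invariance under `τ (i * j)`); the sum over
`i < Q` of `A i * F i` equals that of `A (i + a) * F (i + a)` for `a < H` (support of `A`); Cauchy-Schwarz over `(i, x)`. -/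
theorem vdc_one {X : Type} [MeasurableSpace X] {m : Measure X} [IsProbabilityMeasure m] {τ : ℤ → X → X} (hτ : IsAct m τ)
    (L : List (ℤ × (X → ℝ))) (hL : ∀ q ∈ L, Bd1 q.2) (j : ℤ) (G : X → ℝ) (hG : Bd1 G) (A : ℕ → ℝ) (Q H : ℕ) (hQ : 1 ≤ Q)
    (hH : 1 ≤ H) (hA : ∀ i, i < H ∨ Q ≤ i → A i = 0) :
    ((∑ i ∈ range Q, A i * corr m τ ((j, G) :: L) i) / (Q : ℝ)) ^ 2 ≤
      (∑ a ∈ range H, ∑ b ∈ range H, (∑ i ∈ range Q, (A (i + a) * A (i + b)) * corr m τ (vstep τ j a b L) i) / (Q : ℝ)) /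
        (H : ℝ) ^ 2 := by
  have hQ0 : (0 : ℝ) < Q := Nat.cast_pos.2 hQ
  have hH0 : (0 : ℝ) < H := Nat.cast_pos.2 hH
  obtain ⟨F, hF⟩ : ∃ F : ℕ → X → ℝ, F = vOneF τ L j := ⟨_, rfl⟩
  have hFb : ∀ i, Bd1 (F i) := by
    intro i
    rw [hF]
    exact vOneF_bd hτ L hL j i
  -- the left hand side
  have hGF : ∀ i, Integrable (fun x => A i * (G x * F i x) / (Q : ℝ)) m := by
    intro i
    have h1 : Bd1 (fun x => G x * F i x) := by
      refine ⟨hG.1.mul (hFb i).1, fun x => ?_⟩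
      rw [abs_mul]
      exact mul_le_one₀ (hG.2 x) (abs_nonneg _) ((hFb i).2 x)
    exact ((Bd1.integrable h1).const_mul _).div_const _
  have e1 : (∑ i ∈ range Q, A i * corr m τ ((j, G) :: L) i) / (Q : ℝ) =
      ∫ x, ∑ i ∈ range Q, A i * (G x * F i x) / (Q : ℝ) ∂m := by
    rw [integral_finset_sum _ fun i _ => hGF i, Finset.sum_div]
    refine Finset.sum_congr rfl fun i _ => ?_
    rw [integral_div, integral_const_mul, vOne_corr hτ L hL j G hG i, hF]
  -- the right hand side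
  have hFF : ∀ i a b, Integrable (fun x => A (i + a) * A (i + b) * (F (i + a) x * F (i + b) x)) m := by
    intro i a b
    have h1 : Bd1 (fun x => F (i + a) x * F (i + b) x) := by
      refine ⟨(hFb _).1.mul (hFb _).1, fun x => ?_⟩
      rw [abs_mul]
      exact mul_le_one₀ ((hFb _).2 x) (abs_nonneg _) ((hFb _).2 x)
    exact (Bd1.integrable h1).const_mul _
  have e2 : (∑ a ∈ range H, ∑ b ∈ range H,
      (∑ i ∈ range Q, (A (i + a) * A (i + b)) * corr m τ (vstep τ j a b L) i) / (Q : ℝ)) /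
        (H : ℝ) ^ 2 =
      ∫ x, (∑ a ∈ range H, ∑ b ∈ range H,
        (∑ i ∈ range Q, A (i + a) * A (i + b) * (F (i + a) x * F (i + b) x)) / (Q : ℝ)) /
          (H : ℝ) ^ 2 ∂m := by
    rw [integral_div, integral_finset_sum _ fun a _ => integrable_finset_sum _ fun b _ =>
      (integrable_finset_sum _ fun i _ => hFF i a b).div_const _]
    congr 1
    refine Finset.sum_congr rfl fun a _ => ?_
    rw [integral_finset_sum _ fun b _ =>
      (integrable_finset_sum _ fun i _ => hFF i a b).div_const _]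
    refine Finset.sum_congr rfl fun b _ => ?_
    rw [integral_div, integral_finset_sum _ fun i _ => hFF i a b]
    congr 1
    refine Finset.sum_congr rfl fun i _ => ?_
    rw [integral_const_mul, vOne_step hτ L j a b i, hF]
  have hR : Integrable (fun x => (∑ a ∈ range H, ∑ b ∈ range H,
      (∑ i ∈ range Q, A (i + a) * A (i + b) * (F (i + a) x * F (i + b) x)) / (Q : ℝ)) /
        (H : ℝ) ^ 2) m :=
    (integrable_finset_sum _ fun a _ => integrable_finset_sum _ fun b _ =>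
      (integrable_finset_sum _ fun i _ => hFF i a b).div_const _).div_const _
  -- the pointwise inequality
  have hpt : ∀ x, (∑ i ∈ range Q, A i * (G x * F i x) / (Q : ℝ)) ^ 2 ≤
      (∑ a ∈ range H, ∑ b ∈ range H,
        (∑ i ∈ range Q, A (i + a) * A (i + b) * (F (i + a) x * F (i + b) x)) / (Q : ℝ)) /
          (H : ℝ) ^ 2 := by
    intro x
    obtain ⟨T, hT⟩ : ∃ T : ℕ → ℝ, T = fun i => (∑ a ∈ range H, A (i + a) * F (i + a) x) / (H : ℝ) :=
      ⟨_, rfl⟩
    have h1 : ∑ i ∈ range Q, T i = ∑ i ∈ range Q, A i * F i x := by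
      rw [hT, ← Finset.sum_div, Finset.sum_comm, Finset.sum_congr rfl fun a ha =>
        vOne_shift (fun i => A i * F i x) Q H a (Finset.mem_range.1 ha) (fun i hi => by
          rw [hA i hi, zero_mul]), Finset.sum_const, Finset.card_range, nsmul_eq_mul,
        mul_div_cancel_left₀ _ hH0.ne']
    have h2 : ∑ i ∈ range Q, A i * (G x * F i x) / (Q : ℝ) = G x * ((∑ i ∈ range Q, T i) / (Q : ℝ)) := by
      rw [h1, ← Finset.sum_div, ← mul_div_assoc, Finset.mul_sum]
      congr 1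
      exact Finset.sum_congr rfl fun i _ => by ring
    have h3 : (∑ a ∈ range H, ∑ b ∈ range H,
        (∑ i ∈ range Q, A (i + a) * A (i + b) * (F (i + a) x * F (i + b) x)) / (Q : ℝ)) /
          (H : ℝ) ^ 2 = (∑ i ∈ range Q, T i ^ 2) / (Q : ℝ) := by
      have h4 : ∀ i, T i ^ 2 = (∑ a ∈ range H, ∑ b ∈ range H,
          A (i + a) * A (i + b) * (F (i + a) x * F (i + b) x)) / (H : ℝ) ^ 2 := by
        intro i
        rw [hT]
        change ((∑ a ∈ range H, A (i + a) * F (i + a) x) / (H : ℝ)) ^ 2 = _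
        rw [div_pow, pow_two (∑ a ∈ range H, A (i + a) * F (i + a) x), Finset.sum_mul_sum]
        congr 1
        exact Finset.sum_congr rfl fun a _ => Finset.sum_congr rfl fun b _ => by ring
      simp only [h4, ← Finset.sum_div]
      rw [div_right_comm]
      congr 2
      rw [Finset.sum_comm (s := range Q)]
      exact Finset.sum_congr rfl fun a _ => Finset.sum_comm
    rw [h2, h3, mul_pow]
    have h5 : G x ^ 2 ≤ 1 := by
      rw [← sq_abs]
      exact pow_le_one₀ (abs_nonneg _) (hG.2 x)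
    have h6 : ((∑ i ∈ range Q, T i) / (Q : ℝ)) ^ 2 ≤ (∑ i ∈ range Q, T i ^ 2) / (Q : ℝ) := by
      have h7 := sq_sum_le_card_mul_sum_sq (s := range Q) (f := T)
      rw [Finset.card_range] at h7
      rw [div_pow, div_le_div_iff₀ (by positivity) hQ0]
      nlinarith
    exact (mul_le_of_le_one_left (sq_nonneg _) h5).trans h6
  rw [e1, e2]
  have hf : Integrable (fun x => ∑ i ∈ range Q, A i * (G x * F i x) / (Q : ℝ)) m :=
    integrable_finset_sum _ fun i _ => hGF i
  have hf2 : Integrable (fun x => (∑ i ∈ range Q, A i * (G x * F i x) / (Q : ℝ)) ^ 2) m := by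
    refine hR.mono' (hf.aestronglyMeasurable.pow 2) (ae_of_all _ fun x => ?_)
    rw [Real.norm_eq_abs, abs_of_nonneg (sq_nonneg _)]
    exact hpt x
  exact (vOne_sq hf hf2).trans (integral_mono hf2 hR hpt)

end Pool.Agent.Lib.MP_3e612f_nt.ZE
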